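import Pool.Agent.Q213.DHLim
import Pool.Agent.Q213.DHAut

/-!
# A strongly universal, vertex-transitive countable distance-hereditary graph

`DistanceHereditary G`: for every set `S` of vertices whose induced subgraph is connected, the
distance of two vertices of `S` in the induced subgraph equals their distance in `G`.
-/

namespace Pool.Agent.Results.MP_0380a0_co.UniversalDH

/-- For every set `S` of vertices whose induced subgraph is connected, the distance of two vertices
of `S` in the induced subgraph equals their distance in `G`. -/
def DistanceHereditary {V : Type*} (G : SimpleGraph V) : Prop :=
  ∀ S : Set V, (G.induce S).Connected → ∀ u v : S, (G.induce S).dist u v = G.dist u.1 v.1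

/-- There is a countable distance-hereditary graph `U` whose automorphism group is transitive on
the vertices and which contains every countable distance-hereditary graph as an induced
subgraph. -/
theorem result : ∃ (W : Type) (_ : Countable W) (U : SimpleGraph W),
    DistanceHereditary U ∧
    (∀ u v : W, ∃ φ : U ≃g U, φ u = v) ∧
    ∀ (V : Type*) [Countable V] (G : SimpleGraph V), DistanceHereditary G → Nonempty (G ↪g U) := by
  refine ⟨Option (List Q213.DH.P), inferInstance, Q213.DH.X, Q213.DH.X_dh,
    Q213.DH.X_transitive, ?_⟩
  intro V _ G hG
  exact Q213.DH.exists_embedding hG

end Pool.Agent.Results.MP_0380a0_co.UniversalDH
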